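import Mathlib

/-!
A prime power that divides a value of the polynomial: a prime `p` outside a given finite set, a
root modulo `p ^ j` which is simple modulo `p`, and the Chinese remainder theorem.
-/

set_option autoImplicit false

namespace Pool.Agent.Lib.MP_a17b09_nt.NA

/-- simple roots modulo `p` lift to `p ^ j` -/
theorem lift_root (a b c : ℤ) (p : ℕ) (hp : p.Prime) (x : ℤ)
    (hx : (p : ℤ) ∣ a * x ^ 2 + b * x + c) (hx' : ¬ (p : ℤ) ∣ 2 * a * x + b) (j : ℕ) :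
    ∃ y : ℤ, ((p : ℤ) ^ (j + 1)) ∣ a * y ^ 2 + b * y + c ∧ ¬ (p : ℤ) ∣ 2 * a * y + b := by
  induction j with
  | zero => exact ⟨x, by simpa using hx, hx'⟩
  | succ j ih =>
    obtain ⟨y, ⟨q, hq⟩, hy'⟩ := ih
    have hcop : IsCoprime (2 * a * y + b) (p : ℤ) :=
      ((Nat.prime_iff_prime_int.1 hp).coprime_iff_not_dvd.2 hy').symm
    obtain ⟨α, β, hαβ⟩ := hcop
    refine ⟨y + (p : ℤ) ^ (j + 1) * (-q * α), ?_, ?_⟩
    · refine ⟨q * β + a * (p : ℤ) ^ j * (q * α) ^ 2, ?_⟩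
      have e1 : (p : ℤ) ^ (j + 1 + 1) = (p : ℤ) ^ j * p ^ 2 := by ring
      have e2 : (p : ℤ) ^ (j + 1) = (p : ℤ) ^ j * p := by ring
      rw [e1]
      rw [e2] at hq ⊢
      linear_combination hq - ((p : ℤ) ^ j * p * q) * hαβ
    · intro hd
      apply hy'
      have e : 2 * a * (y + (p : ℤ) ^ (j + 1) * (-q * α)) + b =
          2 * a * y + b + p * (2 * a * ((p : ℤ) ^ j * (-q * α))) := by ring
      rw [e] at hd
      exact (dvd_add_left (Dvd.intro _ rfl)).1 hd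

/-- a prime not dividing `K` with a simple root -/
theorem exists_root (a b c : ℤ) (ha : 0 < a) (hΔ : ¬ IsSquare (b ^ 2 - 4 * a * c)) (h : ℕ)
    (hh : 0 < h) :
    ∃ (p : ℕ) (x : ℤ), p.Prime ∧ ¬ p ∣ h ∧ (p : ℤ) ∣ a * x ^ 2 + b * x + c ∧
      ¬ (p : ℤ) ∣ 2 * a * x + b := by
  have hc0 : c ≠ 0 := by
    rintro rfl
    exact hΔ ⟨b, by ring⟩
  obtain ⟨Δ, hΔd⟩ : ∃ Δ : ℤ, Δ = b ^ 2 - 4 * a * c := ⟨_, rfl⟩
  have hΔ0 : Δ ≠ 0 := by
    rintro h0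
    rw [hΔd] at h0
    exact hΔ (by rw [h0]; exact ⟨0, by ring⟩)
  have hh0 : (h : ℤ) ≠ 0 := by exact_mod_cast hh.ne'
  obtain ⟨K, hK⟩ : ∃ K : ℤ, K = Δ * h := ⟨_, rfl⟩
  have hK0 : K ≠ 0 := by rw [hK]; exact mul_ne_zero hΔ0 hh0
  -- choice of `y`
  obtain ⟨y, hy⟩ : ∃ y : ℤ, 2 < |1 + K * (a * c * K * y ^ 2 + b * y)| := by
    refine ⟨|b| + 3, ?_⟩
    have hb := abs_nonneg b
    have h1 : a * c * K * (|b| + 3) ^ 2 + b * (|b| + 3) =
        (|b| + 3) * (a * c * K * (|b| + 3) + b) := by ring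
    have h2 : 3 ≤ |a * c * K * (|b| + 3) + b| := by
      have h3 : |b| + 3 ≤ |a * c * K * (|b| + 3)| := by
        rw [abs_mul, abs_of_nonneg (by linarith : 0 ≤ |b| + 3)]
        have h4 : 1 ≤ |a * c * K| := Int.one_le_abs (mul_ne_zero (mul_ne_zero ha.ne' hc0) hK0)
        nlinarith
      have h5 := abs_sub_abs_le_abs_sub (a * c * K * (|b| + 3)) (-b)
      rw [abs_neg, sub_neg_eq_add] at h5
      linarith
    have h3 : 9 ≤ |K * (a * c * K * (|b| + 3) ^ 2 + b * (|b| + 3))| := by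
      rw [h1, abs_mul, abs_mul, abs_of_nonneg (by linarith : 0 ≤ |b| + 3)]
      have h4 : 1 ≤ |K| := Int.one_le_abs hK0
      have h5 : 9 ≤ (|b| + 3) * |a * c * K * (|b| + 3) + b| := by nlinarith
      nlinarith
    have h4 := abs_sub_abs_le_abs_sub (K * (a * c * K * (|b| + 3) ^ 2 + b * (|b| + 3))) (-1)
    rw [abs_neg, abs_one, sub_neg_eq_add] at h4
    rw [add_comm]
    linarith
  obtain ⟨A, hA⟩ : ∃ A : ℤ, A = 1 + K * (a * c * K * y ^ 2 + b * y) := ⟨_, rfl⟩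
  rw [← hA] at hy
  have hA1 : A.natAbs ≠ 1 := by
    intro h1
    have h2 : |A| = ((A.natAbs : ℕ) : ℤ) := (Int.natCast_natAbs A).symm
    rw [h2, h1] at hy
    norm_num at hy
  obtain ⟨p, hp, hpA⟩ := Nat.exists_prime_and_dvd hA1
  have hpA' : (p : ℤ) ∣ A := Int.natCast_dvd.2 hpA
  have hpK : ¬ (p : ℤ) ∣ K := by
    intro hd
    have h1 : (p : ℤ) ∣ 1 := by
      have h2 : (p : ℤ) ∣ A - K * (a * c * K * y ^ 2 + b * y) := dvd_sub hpA' (hd.mul_right _)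
      have h3 : A - K * (a * c * K * y ^ 2 + b * y) = 1 := by rw [hA]; ring
      rwa [h3] at h2
    exact (Nat.prime_iff_prime_int.1 hp).not_isUnit (isUnit_of_dvd_one h1)
  refine ⟨p, c * K * y, hp, ?_, ?_, ?_⟩
  · intro hd
    apply hpK
    rw [hK]
    exact Dvd.dvd.mul_left (Int.natCast_dvd_natCast.2 hd) _
  · have e : a * (c * K * y) ^ 2 + b * (c * K * y) + c = c * A := by rw [hA]; ring
    rw [e]
    exact hpA'.mul_left _
  · intro hd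
    apply hpK
    have e : Δ = (2 * a * (c * K * y) + b) ^ 2 - 4 * a * (c * A) := by rw [hA, hΔd]; ring
    have h1 : (p : ℤ) ∣ Δ := by
      rw [e]
      apply dvd_sub
      · exact Dvd.dvd.pow hd two_ne_zero
      · exact (hpA'.mul_left _).mul_left _
    rw [hK]
    exact h1.mul_right _

/-- the shifted polynomial: a prime power dividing the values in a class -/
theorem exists_shift (a b c : ℤ) (ha : 0 < a) (hΔ : ¬ IsSquare (b ^ 2 - 4 * a * c)) (m h t0 : ℕ)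
    (hm : 0 < m) (hh : 0 < h) :
    ∃ (p t1 u0 : ℕ), p.Prime ∧ t1 + p ^ m * u0 ≡ t0 [MOD h] ∧
      ((p ^ m : ℕ) : ℤ) ∣ a * (t1 : ℤ) ^ 2 + b * t1 + c ∧ ¬ (p : ℤ) ∣ 2 * a * t1 + b := by
  obtain ⟨p, x, hp, hph, hpx, hpx'⟩ := exists_root a b c ha hΔ h hh
  obtain ⟨j, rfl⟩ : ∃ j, m = j + 1 := ⟨m - 1, by omega⟩
  obtain ⟨y, hy, hy'⟩ := lift_root a b c p hp x hpx hpx' j
  have hPpos : (0 : ℤ) < (p : ℤ) ^ (j + 1) := by
    have : (0 : ℤ) < p := by exact_mod_cast hp.pos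
    positivity
  obtain ⟨t1, ht1⟩ : ∃ t1 : ℕ, (t1 : ℤ) = y % (p : ℤ) ^ (j + 1) :=
    ⟨(y % (p : ℤ) ^ (j + 1)).toNat, Int.toNat_of_nonneg (Int.emod_nonneg _ hPpos.ne')⟩
  obtain ⟨q, hq⟩ : ∃ q : ℤ, (t1 : ℤ) = y - (p : ℤ) ^ (j + 1) * q :=
    ⟨y / (p : ℤ) ^ (j + 1), by rw [ht1, Int.emod_def]⟩
  have hcop : Nat.Coprime (p ^ (j + 1)) h :=
    Nat.Coprime.pow_left _ ((Nat.Prime.coprime_iff_not_dvd hp).2 hph)
  obtain ⟨k, hk1, hk2⟩ := Nat.chineseRemainder hcop t1 t0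
  have hPn : 0 < p ^ (j + 1) := pow_pos hp.pos _
  have hk3 : k + p ^ (j + 1) * h * t1 ≡ t1 [MOD p ^ (j + 1)] := by
    have e : k + p ^ (j + 1) * h * t1 = k + p ^ (j + 1) * (h * t1) := by ring
    rw [e]
    exact (Nat.ModEq.add_right_cancel' 0 (by
      simp only [add_zero]
      unfold Nat.ModEq
      rw [Nat.add_mul_mod_self_left])).trans hk1
  have hle : t1 ≤ k + p ^ (j + 1) * h * t1 := by
    have h1 : 1 ≤ p ^ (j + 1) * h := Nat.mul_pos hPn hh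
    nlinarith
  obtain ⟨u0, hu0⟩ := (Nat.modEq_iff_dvd' hle).1 hk3.symm
  refine ⟨p, t1, u0, hp, ?_, ?_, ?_⟩
  · have e1 : t1 + p ^ (j + 1) * u0 = k + p ^ (j + 1) * h * t1 := by omega
    rw [e1]
    have e2 : k + p ^ (j + 1) * h * t1 = k + h * (p ^ (j + 1) * t1) := by ring
    rw [e2]
    refine Nat.ModEq.trans ?_ hk2
    unfold Nat.ModEq
    rw [Nat.add_mul_mod_self_left]
  · push_cast
    have e : a * (t1 : ℤ) ^ 2 + b * t1 + c = (a * y ^ 2 + b * y + c) +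
        (p : ℤ) ^ (j + 1) * (-q * (2 * a * y + b) + a * (p : ℤ) ^ (j + 1) * q ^ 2) := by
      rw [hq]; ring
    rw [e]
    exact dvd_add hy (Dvd.intro _ rfl)
  · intro hd
    apply hy'
    have e : 2 * a * y + b = 2 * a * t1 + b + p * (2 * a * ((p : ℤ) ^ j * q)) := by
      rw [hq]; ring
    rw [e]
    exact dvd_add hd (Dvd.intro _ rfl)

end Pool.Agent.Lib.MP_a17b09_nt.NA
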