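import Pool.Agent.Lib.MP_a17b09_nt.NA.Near64

/-!
From the polynomial `g(u) = f(t1 + P u) / P`, `P = p ^ m`, to `f`: the factors `p` are distributed
among the divisor and its cofactor.
-/

set_option autoImplicit false

namespace Pool.Agent.Lib.MP_a17b09_nt.NA

open Finset Pool.Agent.Lib.QuadParity Pool.Agent.MP_a17b09_nt.OM Pool.Agent.Lib.MP_a17b09_nt.BP
  Pool.Agent.Lib.MP_a17b09_nt.AM ArithmeticFunction

/-- the count with near divisors -/
def Cnt (a b c : ℤ) (m ρ t0 h : ℕ) : Prop :=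
  ∃ C : ℕ, 0 < C ∧ ∃ κ : ℝ, 0 < κ ∧ ∃ N₁ : ℕ, ∀ N : ℕ, N₁ ≤ N →
    κ * ((N : ℝ) / (Real.log N) ^ C) ≤ ((goodN a b c m (ρ : ZMod m) t0 h C N).card : ℝ)

/-- `f(t) = d e` with the required properties -/
def Good (a b c : ℤ) (m r s t0 h C N t : ℕ) : Prop :=
  1 ≤ t ∧ t ≤ N ∧ t ≡ t0 [MOD h] ∧ ∃ d e : ℕ, a * (t : ℤ) ^ 2 + b * (t : ℤ) + c = d * e ∧
    (t ≤ C * d ∧ d ≤ C * t) ∧ (t ≤ C * e ∧ e ≤ C * t) ∧
    cardFactors d ≡ r [MOD m] ∧ cardFactors e ≡ s [MOD m] ∧ cardFactors (d * e) ≤ C ∧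
    ∀ q : ℕ, q.Prime → q ∣ d * e → q ≤ C ∨ (N : ℝ) ^ (1 / (C : ℝ)) < q

/-- distribution of `p ^ m` -/
theorem split_pow (p m r s ρ d0 e0 : ℕ) (hp : p.Prime) (hm : 0 < m) (hd : 0 < d0) (he : 0 < e0)
    (h1 : cardFactors (d0 * e0) ≡ ρ [MOD m]) (h2 : ρ ≡ r + s [MOD m]) :
    ∃ i : ℕ, i < m ∧ cardFactors (p ^ i * d0) ≡ r [MOD m] ∧
      cardFactors (p ^ (m - i) * e0) ≡ s [MOD m] := by
  have : NeZero m := ⟨hm.ne'⟩
  obtain ⟨i, hi⟩ : ∃ i : ℕ, i = ((r : ZMod m) - (cardFactors d0 : ℕ)).val := ⟨_, rfl⟩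
  have him : i < m := by rw [hi]; exact ZMod.val_lt _
  have hiz : (i : ZMod m) = (r : ZMod m) - (cardFactors d0 : ℕ) := by
    rw [hi, ZMod.natCast_zmod_val]
  have hpi : ∀ j : ℕ, cardFactors (p ^ j) = j := fun j => by
    rw [cardFactors_apply_prime_pow hp]
  refine ⟨i, him, ?_, ?_⟩
  · rw [cardFactors_mul (pow_pos hp.pos _).ne' hd.ne', hpi, ← ZMod.natCast_eq_natCast_iff]
    push_cast
    rw [hiz]; ring
  · rw [cardFactors_mul (pow_pos hp.pos _).ne' he.ne', hpi, ← ZMod.natCast_eq_natCast_iff]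
    rw [cardFactors_mul hd.ne' he.ne', ← ZMod.natCast_eq_natCast_iff] at h1
    rw [← ZMod.natCast_eq_natCast_iff] at h2
    push_cast [Nat.cast_sub him.le] at h1 h2 ⊢
    rw [hiz, ZMod.natCast_self]
    linear_combination h1 + h2

/-- one argument -/
theorem good_of (a b c : ℤ) (ha : 0 < a) (m r s t0 h p t1 u0 C C' N N' u : ℕ) (hm : 0 < m)
    (hp : p.Prime) (hu0 : t1 + p ^ m * u0 ≡ t0 [MOD h])
    (A B D : ℤ) (hA : A = a * (p ^ m : ℕ)) (hB : B = 2 * a * t1 + b)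
    (hD : a * (t1 : ℤ) ^ 2 + b * t1 + c = (p ^ m : ℕ) * D)
    (hu : u ∈ goodN A B D m (((r + s : ℕ) : ℕ) : ZMod m) u0 h C N')
    (hN : t1 + p ^ m * N' ≤ N) (hNN : N ≤ N' ^ 2)
    (hC : 2 * C * ((a.natAbs + b.natAbs + c.natAbs) * (C * (t1 + p ^ m) * p ^ m)) +
      2 * (C * (t1 + p ^ m) * p ^ m) + 2 * (b.natAbs + c.natAbs) + m + 2 * C ≤ C')
    (hC0 : 0 < C) :
    Good a b c m r s t0 h C' N (t1 + p ^ m * u) := by
  classical
  unfold goodN goodA NearD at hu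
  rw [Finset.mem_filter, Finset.mem_filter, Finset.mem_Icc] at hu
  obtain ⟨⟨⟨hu1, huN⟩, huh, hg0, hOm, hρ, hpr⟩, d0, hd0, hn1, hn2⟩ := hu
  obtain ⟨P, hP⟩ : ∃ P : ℕ, P = p ^ m := ⟨_, rfl⟩
  rw [← hP] at hu0 hA hD hN hC ⊢
  have hPpos : 0 < P := by rw [hP]; exact pow_pos hp.pos _
  obtain ⟨t, ht⟩ : ∃ t : ℕ, t = t1 + P * u := ⟨_, rfl⟩
  rw [← ht]
  have hval : a * (t : ℤ) ^ 2 + b * (t : ℤ) + c = P * (A * (u : ℤ) ^ 2 + B * u + D) := by
    rw [ht, hA, hB]
    push_cast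
    linear_combination hD
  obtain ⟨G, hG⟩ : ∃ G : ℕ, (G : ℤ) = A * (u : ℤ) ^ 2 + B * u + D :=
    ⟨(A * (u : ℤ) ^ 2 + B * u + D).toNat, Int.toNat_of_nonneg hg0.le⟩
  rw [← hG] at hd0 hg0 hOm hρ hpr hval
  have hG0 : 0 < G := by exact_mod_cast hg0
  obtain ⟨e0, he0⟩ : d0 ∣ G := by exact_mod_cast hd0
  have hd0pos : 0 < d0 := Nat.pos_of_mul_pos_right (by rw [← he0]; exact hG0)
  have he0pos : 0 < e0 := Nat.pos_of_mul_pos_left (by rw [← he0]; exact hG0)
  have hOmG : Om (G : ℤ) = cardFactors G := by unfold Om; rw [Int.natAbs_natCast]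
  rw [hOmG] at hOm hρ
  have hρ' : cardFactors (d0 * e0) ≡ r + s [MOD m] := by
    rw [← he0, ← ZMod.natCast_eq_natCast_iff]; exact hρ
  obtain ⟨i, him, hi1, hi2⟩ := split_pow p m r s (r + s) d0 e0 hp hm hd0pos he0pos hρ' rfl
  have hpi1 : 1 ≤ p ^ i := Nat.one_le_pow _ _ hp.pos
  have hpi2 : p ^ i ≤ P := by rw [hP]; exact Nat.pow_le_pow_right hp.pos him.le
  have hpj1 : 1 ≤ p ^ (m - i) := Nat.one_le_pow _ _ hp.pos
  have hPP : p ^ i * p ^ (m - i) = P := by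
    rw [hP, ← pow_add]; congr 1; omega
  have hut : u ≤ t := by
    rw [ht]
    exact (Nat.le_mul_of_pos_left u hPpos).trans (Nat.le_add_left _ _)
  have ht1 : 1 ≤ t := hu1.trans hut
  have htu : t ≤ (t1 + P) * u := by
    rw [ht, add_mul]
    exact Nat.add_le_add_right (Nat.le_mul_of_pos_right _ hu1) _
  have hprod : p ^ i * d0 * (p ^ (m - i) * e0) = P * G := by
    rw [he0, ← hPP]; ring
  -- sizes
  obtain ⟨K, hK⟩ : ∃ K : ℕ, K = C * (t1 + P) * P := ⟨_, rfl⟩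
  have hKd : t ≤ K * (p ^ i * d0) := by
    calc t ≤ (t1 + P) * u := htu
      _ ≤ (t1 + P) * (C * d0) := Nat.mul_le_mul_left _ hn1
      _ = C * (t1 + P) * 1 * (1 * d0) := by ring
      _ ≤ C * (t1 + P) * P * (p ^ i * d0) := by gcongr; omega
      _ = _ := by rw [hK]
  have hdK : p ^ i * d0 ≤ K * t := by
    calc p ^ i * d0 ≤ P * (C * u) := Nat.mul_le_mul hpi2 hn2
      _ = C * 1 * P * u := by ring
      _ ≤ C * (t1 + P) * P * t := by gcongr; omega
      _ = _ := by rw [hK]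
  have hK0 : 0 < K := by rw [hK]; positivity
  obtain ⟨T, hT⟩ : ∃ T : ℕ, T = a.natAbs + b.natAbs + c.natAbs := ⟨_, rfl⟩
  rw [← hK, ← hT] at hC
  have hval2 : a * (t : ℤ) ^ 2 + b * (t : ℤ) + c = ((P * G : ℕ) : ℤ) := by
    rw [hval]; push_cast; ring
  have haN : ((a.natAbs : ℕ) : ℤ) = a := Int.natAbs_of_nonneg ha.le
  have ht1' : (1 : ℤ) ≤ t := by exact_mod_cast ht1
  have hbt : |b| * (t : ℤ) ≤ |b| * (t : ℤ) ^ 2 := by
    exact mul_le_mul_of_nonneg_left (le_self_pow₀ ht1' two_ne_zero) (abs_nonneg b)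
  have hup : P * G ≤ T * t ^ 2 := by
    have h1 : ((P * G : ℕ) : ℤ) ≤ T * (t : ℤ) ^ 2 := by
      rw [← hval2, hT]
      push_cast
      rw [abs_of_pos ha]
      have h3 : b * (t : ℤ) ≤ |b| * t := mul_le_mul_of_nonneg_right (le_abs_self b) (by linarith)
      have h4 : c ≤ |c| := le_abs_self c
      have h5 : |c| * 1 ≤ |c| * (t : ℤ) ^ 2 := mul_le_mul_of_nonneg_left (one_le_pow₀ ht1') (abs_nonneg c)
      linear_combination h3 + hbt + h4 + h5
    exact_mod_cast h1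
  have heK : p ^ (m - i) * e0 ≤ T * K * t := by
    by_contra hcon
    push Not at hcon
    have h1 : t * (T * K * t) < K * (p ^ i * d0) * (p ^ (m - i) * e0) :=
      lt_of_lt_of_le (Nat.mul_lt_mul_of_pos_left hcon ht1)
        (Nat.mul_le_mul_right _ hKd)
    have h2 : K * (p ^ i * d0) * (p ^ (m - i) * e0) = K * (P * G) := by rw [← hprod]; ring
    rw [h2] at h1
    have h3 : K * (P * G) ≤ K * (T * t ^ 2) := Nat.mul_le_mul_left _ hup
    have h4 : t * (T * K * t) = K * (T * t ^ 2) := by ring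
    omega
  have hKe : t ≤ (2 * K + 2 * (b.natAbs + c.natAbs)) * (p ^ (m - i) * e0) := by
    have hepos : 1 ≤ p ^ (m - i) * e0 := Nat.mul_pos hpj1 he0pos
    rcases le_or_gt t (2 * (b.natAbs + c.natAbs)) with h1 | h1
    · calc t ≤ 2 * (b.natAbs + c.natAbs) := h1
        _ ≤ 2 * K + 2 * (b.natAbs + c.natAbs) := Nat.le_add_left _ _
        _ = (2 * K + 2 * (b.natAbs + c.natAbs)) * 1 := by ring
        _ ≤ _ := Nat.mul_le_mul_left _ hepos
    · have hlow : t ^ 2 ≤ 2 * (P * G) := by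
        have h2 : (t : ℤ) ^ 2 ≤ 2 * ((P * G : ℕ) : ℤ) := by
          rw [← hval2]
          have h3 : (2 * (|b| + |c|) : ℤ) < t := by
            have : ((2 * (b.natAbs + c.natAbs) : ℕ) : ℤ) < t := by exact_mod_cast h1
            push_cast at this
            exact this
          have h4 : -(|b| * t) ≤ b * t := by
            have := mul_le_mul_of_nonneg_right (neg_abs_le b) (by linarith : (0 : ℤ) ≤ t)
            linarith
          have h5 : -(|c| * t) ≤ c := by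
            have h6 : |c| * 1 ≤ |c| * (t : ℤ) := mul_le_mul_of_nonneg_left ht1' (abs_nonneg c)
            linarith [neg_abs_le c]
          have h6 : 1 * (t : ℤ) ^ 2 ≤ a * (t : ℤ) ^ 2 :=
            mul_le_mul_of_nonneg_right (by linarith) (by positivity)
          have h7 : 2 * (|b| + |c|) * (t : ℤ) ≤ t * t :=
            mul_le_mul_of_nonneg_right h3.le (by linarith)
          linear_combination 2 * h6 + 2 * h4 + 2 * h5 + h7
        exact_mod_cast h2
      have h3 : t * t ≤ t * (2 * K * (p ^ (m - i) * e0)) := by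
        calc t * t = t ^ 2 := by ring
          _ ≤ 2 * (P * G) := hlow
          _ = 2 * ((p ^ i * d0) * (p ^ (m - i) * e0)) := by rw [hprod]
          _ ≤ 2 * ((K * t) * (p ^ (m - i) * e0)) := by gcongr
          _ = _ := by ring
      have h4 := Nat.le_of_mul_le_mul_left h3 (by omega)
      calc t ≤ 2 * K * (p ^ (m - i) * e0) := h4
        _ ≤ _ := Nat.mul_le_mul_right _ (Nat.le_add_right _ _)
  have hTpos : 1 ≤ T := by
    rw [hT]
    have : 1 ≤ a.natAbs := Nat.one_le_iff_ne_zero.2 (Int.natAbs_ne_zero.2 ha.ne')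
    omega
  have hC1 : T * K ≤ C' := by
    have : 1 * (T * K) ≤ 2 * C * (T * K) := Nat.mul_le_mul_right _ (by omega)
    omega
  have hC2 : 2 * K + 2 * (b.natAbs + c.natAbs) ≤ C' := by omega
  have hC3 : K ≤ C' := by omega
  refine ⟨ht1, ?_, ?_, p ^ i * d0, p ^ (m - i) * e0, ?_, ⟨?_, ?_⟩, ⟨?_, ?_⟩, hi1, hi2, ?_, ?_⟩
  · calc t = t1 + P * u := ht
      _ ≤ t1 + P * N' := by gcongr
      _ ≤ N := hN
  · rw [ht]
    exact ((huh.mul_left P).add_left t1).trans hu0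
  · rw [hval2, ← hprod]; push_cast; ring
  · exact hKd.trans (Nat.mul_le_mul_right _ hC3)
  · exact hdK.trans (Nat.mul_le_mul_right _ hC3)
  · exact hKe.trans (Nat.mul_le_mul_right _ hC2)
  · exact heK.trans (Nat.mul_le_mul_right _ hC1)
  · rw [hprod, cardFactors_mul hPpos.ne' hG0.ne', hP, cardFactors_apply_prime_pow hp]
    omega
  · intro q hq hqd
    rw [hprod] at hqd
    rcases (Nat.Prime.dvd_mul hq).1 hqd with h1 | h1
    · left
      have h2 : q ≤ P := Nat.le_of_dvd hPpos h1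
      have h3 : 1 * P ≤ C * (t1 + P) * P := by
        apply Nat.mul_le_mul_right
        exact Nat.mul_pos hC0 (by omega)
      omega
    · rcases hpr q hq (by exact_mod_cast h1) with h2 | h2
      · left; omega
      · right
        refine lt_of_le_of_lt ?_ h2
        have hN'1 : 1 ≤ N' := le_trans hu1 huN
        have hN'r : (1 : ℝ) ≤ N' := by exact_mod_cast hN'1
        have hC'C : (2 : ℝ) * C ≤ C' := by
          have : 2 * C ≤ C' := by omega
          exact_mod_cast this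
        have hCr : (0 : ℝ) < C := by exact_mod_cast hC0
        have hNr : (N : ℝ) ≤ (N' : ℝ) ^ (2 : ℝ) := by
          rw [Real.rpow_two]; exact_mod_cast hNN
        calc (N : ℝ) ^ (1 / (C' : ℝ)) ≤ ((N' : ℝ) ^ (2 : ℝ)) ^ (1 / (C' : ℝ)) :=
              Real.rpow_le_rpow (by positivity) hNr (by positivity)
          _ = (N' : ℝ) ^ (2 * (1 / (C' : ℝ))) := by rw [← Real.rpow_mul (by positivity)]
          _ ≤ (N' : ℝ) ^ (1 / (C : ℝ)) := by
              apply Real.rpow_le_rpow_of_exponent_le hN'r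
              rw [mul_one_div, div_le_div_iff₀ (by linarith) hCr]
              linarith

open Classical in
/-- the transformation -/
theorem trans64 (a b c : ℤ) (ha : 0 < a) (m r s t0 h p t1 u0 : ℕ) (hm : 0 < m)
    (hp : p.Prime) (hu0 : t1 + p ^ m * u0 ≡ t0 [MOD h])
    (A B D : ℤ) (hA : A = a * (p ^ m : ℕ)) (hB : B = 2 * a * t1 + b)
    (hD : a * (t1 : ℤ) ^ 2 + b * t1 + c = (p ^ m : ℕ) * D)
    (hcnt : Cnt A B D m (r + s) u0 h) :
    ∃ C : ℕ, 0 < C ∧ ∃ κ : ℝ, 0 < κ ∧ ∃ N₁ : ℕ, ∀ N : ℕ, N₁ ≤ N →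
      ∃ S : Finset ℕ, κ * ((N : ℝ) / (Real.log N) ^ C) ≤ (S.card : ℝ) ∧
        ∀ t ∈ S, Good a b c m r s t0 h C N t := by
  obtain ⟨C, hC0, κ, hκ, N₁, hN₁⟩ := hcnt
  obtain ⟨P, hP⟩ : ∃ P : ℕ, P = p ^ m := ⟨_, rfl⟩
  have hPpos : 0 < P := by rw [hP]; exact pow_pos hp.pos _
  obtain ⟨C', hC'⟩ : ∃ C' : ℕ, C' =
      2 * C * ((a.natAbs + b.natAbs + c.natAbs) * (C * (t1 + p ^ m) * p ^ m)) +
      2 * (C * (t1 + p ^ m) * p ^ m) + 2 * (b.natAbs + c.natAbs) + m + 2 * C := ⟨_, rfl⟩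
  refine ⟨C', by omega, κ / (2 * P), by positivity,
    (t1 + P * (N₁ + 1)) + 16 * (P + t1 + 1) ^ 2 + 3, ?_⟩
  intro N hN
  obtain ⟨N', hN'⟩ : ∃ N' : ℕ, N' = (N - t1) / P := ⟨_, rfl⟩
  obtain ⟨X1, hX1⟩ : ∃ X1 : ℕ, X1 = P * (N₁ + 1) := ⟨_, rfl⟩
  obtain ⟨X2, hX2⟩ : ∃ X2 : ℕ, X2 = (P + t1 + 1) ^ 2 := ⟨_, rfl⟩
  rw [← hX1, ← hX2] at hN
  have hX3 : P ≤ X2 := by
    rw [hX2]
    exact (show P ≤ P + t1 + 1 by omega).trans (Nat.le_self_pow two_ne_zero _)
  have hX4 : t1 ≤ X2 := by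
    rw [hX2]
    exact (show t1 ≤ P + t1 + 1 by omega).trans (Nat.le_self_pow two_ne_zero _)
  have hX5 : P ^ 2 ≤ X2 := by rw [hX2]; exact Nat.pow_le_pow_left (by omega) 2
  have hN1 : t1 + P * N' ≤ N := by
    have h1 : P * N' ≤ N - t1 := by rw [hN']; exact Nat.mul_div_le _ _
    omega
  have hN2 : N < t1 + P * N' + P := by
    have h1 : N - t1 < P * N' + P := by
      rw [hN']
      have := Nat.lt_mul_div_succ (N - t1) hPpos
      calc N - t1 < P * ((N - t1) / P + 1) := this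
        _ = _ := by ring
    omega
  have hN3 : N₁ ≤ N' := by
    by_contra hcon
    push Not at hcon
    have h1 : P * (N' + 1) ≤ P * N₁ := Nat.mul_le_mul_left _ hcon
    have h2 : P * (N' + 1) = P * N' + P := by ring
    have h3 : X1 = P * N₁ + P := by rw [hX1]; ring
    omega
  have hN4 : N ≤ 2 * (P * N') := by
    omega
  have hN5 : N ≤ N' ^ 2 := by
    have h1 : 2 * P ≤ N' := by
      by_contra hcon
      push Not at hcon
      have h2 : P * N' ≤ P * (2 * P) := Nat.mul_le_mul_left _ hcon.le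
      have h3 : P * (2 * P) = 2 * P ^ 2 := by ring
      omega
    calc N ≤ 2 * (P * N') := hN4
      _ = (2 * P) * N' := by ring
      _ ≤ N' * N' := Nat.mul_le_mul_right _ h1
      _ = N' ^ 2 := by ring
  have hcard := hN₁ N' hN3
  refine ⟨(goodN A B D m (((r + s : ℕ) : ℕ) : ZMod m) u0 h C N').image (fun u => t1 + p ^ m * u),
    ?_, ?_⟩
  · rw [Finset.card_image_of_injective _ (by
      intro x y hxy
      simp only at hxy
      have h1 : p ^ m * x = p ^ m * y := by omega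
      exact Nat.eq_of_mul_eq_mul_left (pow_pos hp.pos _) h1)]
    refine le_trans ?_ hcard
    have hPr : (0 : ℝ) < P := by exact_mod_cast hPpos
    have hN'le : N' ≤ N :=
      (Nat.le_mul_of_pos_left N' hPpos).trans ((Nat.le_add_left _ _).trans hN1)
    have hN'0 : 3 ≤ N' := by
      have : N ≤ N' ^ 2 := hN5
      by_contra hcon
      push Not at hcon
      have h1 : N' ^ 2 ≤ 2 ^ 2 := Nat.pow_le_pow_left (by omega) 2
      omega
    have hlog1 : 1 ≤ Real.log N' := by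
      have h3 : (3 : ℝ) ≤ N' := by exact_mod_cast hN'0
      rw [Real.le_log_iff_exp_le (by linarith)]
      have := Real.exp_one_lt_d9
      linarith
    have hlog2 : Real.log N' ≤ Real.log N :=
      Real.log_le_log (by exact_mod_cast (by omega : 0 < N')) (by exact_mod_cast hN'le)
    have hpow : (Real.log N') ^ C ≤ (Real.log N) ^ C' := by
      calc (Real.log N') ^ C ≤ (Real.log N) ^ C := pow_le_pow_left₀ (by linarith) hlog2 _
        _ ≤ (Real.log N) ^ C' := pow_le_pow_right₀ (by linarith) (by omega)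
    have hNr : (N : ℝ) ≤ 2 * (P * N') := by exact_mod_cast hN4
    calc κ / (2 * P) * ((N : ℝ) / (Real.log N) ^ C') ≤
        κ / (2 * P) * ((2 * (P * N')) / (Real.log N') ^ C) := by
          apply mul_le_mul_of_nonneg_left _ (by positivity)
          exact div_le_div₀ (by positivity) hNr (by positivity) hpow
      _ = κ * ((N' : ℝ) / (Real.log N') ^ C) := by field_simp
  · intro t ht
    rw [Finset.mem_image] at ht
    obtain ⟨u, hu, rfl⟩ := ht
    exact good_of a b c ha m r s t0 h p t1 u0 C C' N N' u hm hp hu0 A B D hA hB hD hu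
      (by rw [← hP]; exact hN1) hN5 (by rw [hC']) hC0

end Pool.Agent.Lib.MP_a17b09_nt.NA
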