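import Pool.Agent.Lib.MP_a17b09_nt.NA.End64
import Pool.Agent.Lib.MP_a17b09_nt.NA.Loc64
import Pool.Agent.Lib.MP_a17b09_nt.NA.Trans64
import Pool.Agent.Lib.MP_a17b09_nt.AM.AllO
import Pool.Agent.Lib.MP_a17b09_nt.AM.PatE
import Pool.Agent.Lib.MP_a17b09_nt.OE.AllE

/-!
Assembly: almost prime near divisors with both numbers of prime factors in residue classes.
-/

set_option autoImplicit false

namespace Pool.Agent.Lib.MP_a17b09_nt.NA

open Pool.Agent.Lib.QuadParity Pool.Agent.MP_a17b09_nt.OM Pool.Agent.Lib.MP_a17b09_nt.BP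
  Pool.Agent.Lib.MP_a17b09_nt.AM

theorem stEndN_all64 : StEndN :=
  stEndN_64 (stLow_38 stmtA stSvD_42 stPer_12 stNb_12) stFacts_5

theorem cnt_odd64 (a b c : ℤ) (ha : 0 < a) (hΔ : ¬ IsSquare (b ^ 2 - 4 * a * c))
    (m ρ t₀ h : ℕ) (hm : Odd m) (hh : 0 < h) : Cnt a b c m ρ t₀ h := by
  obtain ⟨r, hr⟩ : ∃ r : ℕ, (r : ℤ) = 2 * a * h :=
    ⟨(2 * a * h).toNat, Int.toNat_of_nonneg (by positivity)⟩
  have hr0 : 0 < r := by
    have hh' : (0 : ℤ) < h := by exact_mod_cast hh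
    have : (0 : ℤ) < r := by rw [hr]; positivity
    exact_mod_cast this
  exact stEndN_all64 a b c ha hΔ m (ρ : ZMod m) t₀ h r hh hr
    (stPatO_all99 _ hΔ m hm _ r hr0 _)

theorem cnt_even64 (hE : StPatE) (a b c : ℤ) (ha : 0 < a) (hab : IsCoprime a b)
    (hΔ : ¬ IsSquare (b ^ 2 - 4 * a * c)) (m ρ t₀ : ℕ) (hm : 0 < m)
    (hρ : ρ ≡ ArithmeticFunction.cardFactors a.natAbs [MOD 2]) : Cnt a b c m ρ t₀ 1 := by
  classical
  obtain ⟨w, hw⟩ : ∃ w : ℕ, w = ArithmeticFunction.cardFactors a.natAbs := ⟨_, rfl⟩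
  have hwO : Om a = w := by rw [hw]; rfl
  rw [← hw] at hρ
  obtain ⟨j, hj⟩ : ∃ j : ℕ, w + 2 * j = ρ + 2 * (m * w) := by
    refine ⟨(ρ + 2 * (m * w) - w) / 2, ?_⟩
    have h1 : w ≤ m * w := Nat.le_mul_of_pos_left w hm
    unfold Nat.ModEq at hρ
    omega
  have hcls : ((Om a + 2 * j : ℕ) : ZMod m) = ((ρ : ℕ) : ZMod m) := by
    rw [hwO, hj]
    push_cast
    rw [ZMod.natCast_self]
    ring
  obtain ⟨r, hr⟩ : ∃ r : ℕ, (r : ℤ) = 2 * a := ⟨(2 * a).toNat, Int.toNat_of_nonneg (by positivity)⟩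
  have hP := hE a b c ha hab hΔ m hm j r hr
  rw [hcls] at hP
  obtain ⟨C, hC, κ, hκ, N₁, hN⟩ := stEndN_all64 a b c ha hΔ m (ρ : ZMod m) 0 1 r one_pos
    (by rw [hr]; push_cast; ring) (by
      have e : 2 * a * ((0 : ℕ) : ℤ) + b = b := by push_cast; ring
      rw [e]; exact hP)
  refine ⟨C, hC, κ, hκ, N₁, fun N hN1 => (hN N hN1).trans ?_⟩
  refine Nat.cast_le.mpr (Finset.card_le_card ?_)
  intro t ht
  unfold goodN goodA at ht ⊢
  rw [Finset.mem_filter, Finset.mem_filter] at ht ⊢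
  exact ⟨⟨ht.1.1, Nat.modEq_one, ht.1.2.2⟩, ht.2⟩

theorem final64 (hE : StPatE) (a b c : ℤ) (ha : 0 < a) (hΔ : ¬ IsSquare (b ^ 2 - 4 * a * c))
    (m r s t₀ h : ℕ) (hm : 0 < m) (hh : 0 < h)
    (hcase : Odd m ∨ (h = 1 ∧ IsCoprime a b ∧
      r + s ≡ ArithmeticFunction.cardFactors a.natAbs [MOD 2])) :
    ∃ C : ℕ, 0 < C ∧ ∃ κ : ℝ, 0 < κ ∧ ∃ N₁ : ℕ, ∀ N : ℕ, N₁ ≤ N →
      ∃ S : Finset ℕ, κ * ((N : ℝ) / (Real.log N) ^ C) ≤ (S.card : ℝ) ∧
        ∀ t ∈ S, Good a b c m r s t₀ h C N t := by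
  obtain ⟨p, t1, u0, hp, hu0, hdvd, hroot⟩ := exists_shift a b c ha hΔ m h t₀ hm hh
  obtain ⟨D, hD⟩ := hdvd
  obtain ⟨A, hA⟩ : ∃ A : ℤ, A = a * (p ^ m : ℕ) := ⟨_, rfl⟩
  obtain ⟨B, hB⟩ : ∃ B : ℤ, B = 2 * a * t1 + b := ⟨_, rfl⟩
  have hPpos : 0 < p ^ m := pow_pos hp.pos _
  have hA0 : 0 < A := by
    rw [hA]
    have : (0 : ℤ) < (p ^ m : ℕ) := by exact_mod_cast hPpos
    positivity
  have hdisc : B ^ 2 - 4 * A * D = b ^ 2 - 4 * a * c := by
    rw [hA, hB]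
    linear_combination (4 * a) * hD
  have hΔ' : ¬ IsSquare (B ^ 2 - 4 * A * D) := by rw [hdisc]; exact hΔ
  refine trans64 a b c ha m r s t₀ h p t1 u0 hm hp hu0 A B D hA hB hD ?_
  rcases Nat.even_or_odd m with hme | hmo
  · rcases hcase with h1 | ⟨h1, hab, hrs⟩
    · exact absurd h1 (Nat.not_odd_iff_even.2 hme)
    · subst h1
      apply cnt_even64 hE A B D hA0 ?_ hΔ' m (r + s) u0 hm
      · have e1 : A.natAbs = a.natAbs * p ^ m := by
          rw [hA, Int.natAbs_mul, Int.natAbs_natCast]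
        rw [e1, ArithmeticFunction.cardFactors_mul (Int.natAbs_ne_zero.2 ha.ne') hPpos.ne',
          ArithmeticFunction.cardFactors_apply_prime_pow hp]
        obtain ⟨k, hk⟩ := hme
        have e2 : m ≡ 0 [MOD 2] := by unfold Nat.ModEq; omega
        have e3 := hrs.add (e2.symm)
        rw [add_zero] at e3
        exact e3
      · have hpI := Nat.prime_iff_prime_int.1 hp
        have h1 : IsCoprime (p : ℤ) B := by
          rw [hB]
          exact hpI.coprime_iff_not_dvd.2 hroot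
        have h2 : IsCoprime a B := by
          obtain ⟨x, y, hxy⟩ := hab
          refine ⟨x - 2 * t1 * y, y, ?_⟩
          rw [hB]
          linear_combination hxy
        rw [hA]
        push_cast
        exact IsCoprime.mul_left h2 (h1.pow_left)
  · exact cnt_odd64 A B D hA0 hΔ' m (r + s) u0 h hmo hh

end Pool.Agent.Lib.MP_a17b09_nt.NA
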