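import Pool.Agent.Lib.MP_a17b09_nt.NA.Near64
import Pool.Agent.Lib.MP_a17b09_nt.AM.Count

/-!
From sifted points to arguments with a near divisor: the count.
-/

set_option autoImplicit false

namespace Pool.Agent.Lib.MP_a17b09_nt.NA

open Finset Pool.Agent.Lib.QuadParity Pool.Agent.Lib.QuadThree Pool.Agent.MP_a17b09_nt.OM
  Pool.Agent.Lib.MP_a17b09_nt.BP Pool.Agent.Lib.MP_a17b09_nt.AM

open Classical in
theorem count_mainN (hF : StFacts) (a b c : ℤ) (ha : 0 < a) (Δ : ℤ)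
    (hΔd : Δ = b ^ 2 - 4 * a * c) (hΔ : ¬ IsSquare Δ)
    (m : ℕ) (ρ : ZMod m) (t0 h r : ℕ) (hr : (r : ℤ) = 2 * a * h) (Y D E Q M L n X N B C : ℕ)
    (hP : PatQ Δ m (ρ + ((Om (4 * a) : ℕ) : ZMod m)) r (2 * a * t0 + b) Y Q)
    (hQ : 0 < Q) (hM : M = Q ^ 2) (hDY : 2 * (Y + 1) ≤ D) (hE : Y ^ 2 + Δ.natAbs < 2 ^ E)
    (hpQ : ∀ p : ℕ, p.Prime → p ≤ D → p ^ E ∣ Q) (hpQ' : ∀ p : ℕ, p.Prime → p ∣ Q → p ≤ D)
    (hL : 4 * (|Δ| + 1) * (Q : ℤ) ^ 2 + 4 ≤ (L : ℤ)) (hX : 2 * a + |b| ≤ (X : ℤ)) (hMX : M ≤ X)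
    (hB : 2 * (1 + |Δ|) * ((Y : ℤ) + 1) ^ 2 * (((L : ℤ) + 1) ^ 2 * (2 * X)) ^ 2 <
      ((2 ^ (2 ^ n)) ^ (B + 1) : ℕ))
    (hN : 2 * (1 + |Δ|) * ((Y : ℤ) + 1) ^ 2 * (((L : ℤ) + 1) ^ 2 * (2 * X)) ^ 2 + |b| ≤ (N : ℤ))
    (hC : 2 * (D * E + B) ≤ C) (hDC : D ≤ C) (hK : KK Δ a b Y L ≤ C)
    (hz : (N : ℝ) ^ (1 / (C : ℝ)) ≤ (2 : ℝ) ^ (2 ^ n)) :
    ∑ l ∈ (Finset.Ioc X (2 * X)).filter (fun p => p.Prime ∧ p ≡ 1 [MOD M]),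
      (sftA Δ Q Y D L M l n).card ≤
      (goodN a b c m ρ t0 h C N).card * ((Y + 1) * (Y + 1) * (2 ^ Om (4 * a) * 2 ^ C)) := by
  set PP := (Finset.Ioc X (2 * X)).filter (fun p => p.Prime ∧ p ≡ 1 [MOD M]) with hPP
  set Tr : Finset (Σ _ : ℕ, ℕ × ℕ) := PP.sigma (fun l => sftA Δ Q Y D L M l n) with hTr
  have hM0 : 0 < M := by rw [hM]; positivity
  have hcard : Tr.card = ∑ l ∈ PP, (sftA Δ Q Y D L M l n).card := Finset.card_sigma _ _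
  rw [← hcard]
  set U : Finset (Σ _ : ℕ, (ℕ × ℕ) × ℕ) := (goodN a b c m ρ t0 h C N).sigma
    (fun t => (Finset.range (Y + 1) ×ˢ Finset.range (Y + 1)) ×ˢ
      (4 * a * (a * (t : ℤ) ^ 2 + b * t + c)).natAbs.divisors) with hU
  have hcardU : U.card ≤ (goodN a b c m ρ t0 h C N).card *
      ((Y + 1) * (Y + 1) * (2 ^ Om (4 * a) * 2 ^ C)) := by
    rw [hU, Finset.card_sigma]
    refine (Finset.sum_le_card_nsmul _ _ ((Y + 1) * (Y + 1) * (2 ^ Om (4 * a) * 2 ^ C)) ?_).trans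
      (le_of_eq (by rw [smul_eq_mul]))
    intro t ht
    rw [Finset.card_product, Finset.card_product, Finset.card_range]
    apply Nat.mul_le_mul_left
    unfold goodN goodA at ht
    rw [Finset.mem_filter, Finset.mem_filter] at ht
    replace ht := ht.1
    obtain ⟨_, _, hf0, hfB, _⟩ := ht
    have h4a : (4 * a : ℤ) ≠ 0 := by linarith
    have h0 : 4 * a * (a * (t : ℤ) ^ 2 + b * t + c) ≠ 0 := mul_ne_zero h4a hf0.ne'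
    have h1 := card_divisors_le _ (Int.natAbs_ne_zero.2 h0)
    have h2 : ArithmeticFunction.cardFactors (4 * a * (a * (t : ℤ) ^ 2 + b * t + c)).natAbs =
        Om (4 * a) + Om (a * (t : ℤ) ^ 2 + b * t + c) := Om_mul h4a hf0.ne'
    rw [h2, pow_add] at h1
    exact h1.trans (Nat.mul_le_mul_left _ (Nat.pow_le_pow_right (by norm_num) hfB))
  refine le_trans ?_ hcardU
  have hone : ∀ σ : (Σ _ : ℕ, ℕ × ℕ), σ ∈ Tr → ∃ (i k t : ℕ) (x l' : ℤ),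
      Fr Δ Q L σ.1 σ.2.1 σ.2.2 x ∧ t ∈ goodN a b c m ρ t0 h C N ∧
      i ≤ Y ∧ k ≤ Y ∧ 0 < k ∧ 0 < l' ∧ gF Δ Q σ.1 σ.2.1 σ.2.2 x i = k * l' ∧
      2 * a * (t : ℤ) + b = sF Δ Q σ.1 σ.2.1 σ.2.2 x + nF Δ Q σ.1 σ.2.1 * i + l' ∧
      l' ∣ 4 * a * (a * (t : ℤ) ^ 2 + b * t + c) := by
    intro σ hσ
    rw [hTr, Finset.mem_sigma, hPP, mem_filter, Finset.mem_Ioc] at hσ
    obtain ⟨⟨⟨h1, h2⟩, h3, h4⟩, h5⟩ := hσ
    obtain ⟨i, k, t, x, l', g1, g2, g3, g4, g5, g6, g7, g8, g9⟩ :=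
      one_pointA hF a b c ha Δ hΔd hΔ m ρ t0 h r hr Y D E Q M L n X N B C hP hQ hM hDY hE hpQ
      hpQ' hL hX hB hN hC hDC hz σ.1 h3 (fun hd => by
        have := Nat.le_of_dvd hM0 hd
        omega) h1 h2 σ.2 h5
    refine ⟨i, k, t, x, l', g1, ?_, g3, g4, g5, g6, g7, g8, g9⟩
    unfold goodN
    rw [Finset.mem_filter]
    refine ⟨g2, ?_⟩
    have ht1 : 1 ≤ t := by
      unfold goodA at g2
      rw [Finset.mem_filter, Finset.mem_Icc] at g2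
      exact g2.1.1
    exact (near_of a b c ha Δ Y Q L σ.1 σ.2.1 σ.2.2 x g1 i k t l' g3 g4 g5 g6 g7 g8 ht1 g9).mono hK
  choose! I K T x L' h1 h2 h3 h4 h5 h6 h7 h8 h9 using hone
  apply Finset.card_le_card_of_injOn
    (fun σ => (⟨T σ, ((I σ, K σ), (L' σ).natAbs)⟩ : Σ _ : ℕ, (ℕ × ℕ) × ℕ))
  · intro σ hσ
    have hg := h2 σ hσ
    rw [mem_coe, hU, Finset.mem_sigma]
    refine ⟨hg, ?_⟩
    rw [Finset.mem_product, Finset.mem_product, Nat.mem_divisors]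
    unfold goodN goodA at hg
    rw [Finset.mem_filter, Finset.mem_filter] at hg
    replace hg := hg.1
    obtain ⟨_, _, hf0, _⟩ := hg
    refine ⟨⟨Finset.mem_range.2 (Nat.lt_succ_of_le (h3 σ hσ)),
      Finset.mem_range.2 (Nat.lt_succ_of_le (h4 σ hσ))⟩, Int.natAbs_dvd_natAbs.2 (h9 σ hσ), ?_⟩
    apply Int.natAbs_ne_zero.2
    apply mul_ne_zero (by linarith) hf0.ne'
  · rintro σ hσ σ' hσ' heq
    rw [mem_coe] at hσ hσ'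
    have a1 := h1 σ hσ
    have a5 := h5 σ hσ
    have a6 := h6 σ hσ
    have a7 := h7 σ hσ
    have a8 := h8 σ hσ
    have b1 := h1 σ' hσ'
    have b6 := h6 σ' hσ'
    have b7 := h7 σ' hσ'
    have b8 := h8 σ' hσ'
    simp only [Sigma.mk.injEq, heq_eq_eq, Prod.mk.injEq] at heq
    obtain ⟨hT, ⟨hI, hK⟩, hLL⟩ := heq
    have hLL' : L' σ = L' σ' := by omega
    rw [← hT, ← hI, ← hLL'] at b8
    rw [← hI, ← hK, ← hLL'] at b7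
    obtain ⟨id1, _, _⟩ := stIdent_99 _ _ _ _ _ _ _ a1
    obtain ⟨id1', _, _⟩ := stIdent_99 _ _ _ _ _ _ _ b1
    have c1 := id1 (I σ)
    have c2 := id1' (I σ)
    have e1 : sF Δ Q σ.1 σ.2.1 σ.2.2 (x σ) + nF Δ Q σ.1 σ.2.1 * (I σ) =
        sF Δ Q σ'.1 σ'.2.1 σ'.2.2 (x σ') + nF Δ Q σ'.1 σ'.2.1 * (I σ) := by linarith
    rw [← e1, c1, a7, b7] at c2
    have hkl : ((K σ : ℕ) : ℤ) * L' σ ≠ 0 :=
      mul_ne_zero (by exact_mod_cast a5.ne') a6.ne'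
    have hnn : nF Δ Q σ.1 σ.2.1 = nF Δ Q σ'.1 σ'.2.1 := mul_right_cancel₀ hkl c2
    have hss : sF Δ Q σ.1 σ.2.1 σ.2.2 (x σ) = sF Δ Q σ'.1 σ'.2.1 σ'.2.2 (x σ') := by
      rw [hnn] at e1
      linarith
    rw [hTr, Finset.mem_sigma, hPP, mem_filter, Finset.mem_Ioc] at hσ hσ'
    obtain ⟨⟨⟨d1, d2⟩, d3, _⟩, _⟩ := hσ
    obtain ⟨⟨⟨d1', d2'⟩, d3', _⟩, _⟩ := hσ'
    obtain ⟨f1, f2, f3⟩ := stUniq_99 Δ Q L σ.1 σ.2.1 σ.2.2 (x σ) σ'.1 σ'.2.1 σ'.2.2 (x σ')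
      (2 * (X : ℤ)) a1 b1 hnn hss (by exact_mod_cast d2) (by exact_mod_cast d2')
      (by have : (X : ℤ) < σ.1 := by exact_mod_cast d1
          linarith)
      (Nat.prime_iff_prime_int.1 d3) (Nat.prime_iff_prime_int.1 d3')
    have g1 : σ.1 = σ'.1 := by exact_mod_cast f1
    have g2 : σ.2.1 = σ'.2.1 := by exact_mod_cast f2
    have g3 : σ.2.2 = σ'.2.2 := by exact_mod_cast f3
    exact Sigma.ext g1 (heq_of_eq (Prod.ext g2 g3))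

end Pool.Agent.Lib.MP_a17b09_nt.NA
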