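import Pool.Agent.Lib.MP_a17b09_nt.AM.Frame

/-!
The arguments found from the sifted points have a divisor of the value of the same order.
-/

set_option autoImplicit false

namespace Pool.Agent.Lib.MP_a17b09_nt.NA

open Finset Pool.Agent.Lib.QuadParity Pool.Agent.MP_a17b09_nt.OM Pool.Agent.Lib.MP_a17b09_nt.BP
  Pool.Agent.Lib.MP_a17b09_nt.AM

/-- `f(t)` has a divisor `d` with `t / C ≤ d ≤ C t` -/
def NearD (a b c : ℤ) (C t : ℕ) : Prop :=
  ∃ d : ℕ, (d : ℤ) ∣ a * (t : ℤ) ^ 2 + b * t + c ∧ t ≤ C * d ∧ d ≤ C * t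

theorem NearD.mono {a b c : ℤ} {C C' t : ℕ} (h : NearD a b c C t) (hC : C ≤ C') :
    NearD a b c C' t := by
  obtain ⟨d, h1, h2, h3⟩ := h
  exact ⟨d, h1, h2.trans (Nat.mul_le_mul_right _ hC), h3.trans (Nat.mul_le_mul_right _ hC)⟩

/-- lower bound for the values of the form -/
theorem sq_le_gF {Δ Q L l u y x : ℤ} (h : Fr Δ Q L l u y x) (i : ℤ) (hi : 0 ≤ i) :
    l ^ 2 ≤ gF Δ Q l u y x i := by
  have hΔ := abs_nonneg Δ
  have hl := h.hl
  have hQ := h.hQ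
  have hlu := h.lu
  have hly := h.ly
  have huQ := h.uQ
  have hxy := h.xy
  have hu0 : 0 < u := by linarith
  have hy0 : 0 < y := by linarith
  have hyx : y ≤ x := by nlinarith
  have hB0 : 0 ≤ y + i * (Q * l) := by
    have : 0 ≤ i * (Q * l) := mul_nonneg hi (by nlinarith)
    linarith
  have hAB : 4 * (|Δ| + 1) * (y + i * (Q * l)) ≤ x + i * u := by
    have e1 := mul_le_mul_of_nonneg_left huQ hi
    linarith only [e1, hxy]
  have hg1 : (x + i * u) ^ 2 ≤ 2 * gF Δ Q l u y x i := Fr.low _ _ hB0 hAB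
  have h1 : 0 ≤ i * u := mul_nonneg hi hu0.le
  have h2 : 8 * l ≤ x + i * u := by linarith
  have h3 : (8 * l) ^ 2 ≤ (x + i * u) ^ 2 := pow_le_pow_left₀ (by linarith) h2 2
  linarith only [h3, hg1, sq_nonneg l]

/-- the constant -/
def KK (Δ a b : ℤ) (Y L : ℕ) : ℕ :=
  ((2 * (1 + |Δ|) * ((Y : ℤ) + 1) ^ 2 * ((L : ℤ) + 1) ^ 4 * Y + |b| + 2 * a) * (4 * a)).natAbs

theorem near_of (a b c : ℤ) (ha : 0 < a) (Δ : ℤ) (Y Q L l : ℕ) (u y x : ℤ)
    (h : Fr Δ Q L l u y x) (i k t : ℕ) (l' : ℤ) (hi : i ≤ Y) (hk : k ≤ Y) (hk0 : 0 < k)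
    (hl' : 0 < l') (hg : gF Δ Q l u y x i = k * l')
    (ht : 2 * a * (t : ℤ) + b = sF Δ Q l u y x + nF Δ Q l u * i + l') (ht1 : 1 ≤ t)
    (hd : l' ∣ 4 * a * (a * (t : ℤ) ^ 2 + b * t + c)) : NearD a b c (KK Δ a b Y L) t := by
  obtain ⟨s1, s2, s3⟩ := stSize_99 _ _ _ _ _ _ _ h Y
  have hs3 := s3 i (Nat.cast_nonneg i) (by exact_mod_cast hi)
  have hΔ := abs_nonneg Δ
  have hb := abs_nonneg b
  have hb1 := le_abs_self b
  have hb2 := neg_abs_le b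
  have hl0 : (1 : ℤ) ≤ l := h.hl
  have hk1 : (1 : ℤ) ≤ k := by exact_mod_cast hk0
  have hkY : (k : ℤ) ≤ Y := by exact_mod_cast hk
  have ht1' : (1 : ℤ) ≤ t := by exact_mod_cast ht1
  have hlow := sq_le_gF h i (Nat.cast_nonneg i)
  rw [hg] at hlow hs3
  have hlY : (l : ℤ) ^ 2 ≤ Y * l' := by
    have : (k : ℤ) * l' ≤ Y * l' := mul_le_mul_of_nonneg_right hkY hl'.le
    linarith
  have hl'k : l' ≤ k * l' := le_mul_of_one_le_left hl'.le hk1
  obtain ⟨W, hW⟩ : ∃ W : ℤ, W = 2 * (1 + |Δ|) * ((Y : ℤ) + 1) ^ 2 * ((L : ℤ) + 1) ^ 4 := ⟨_, rfl⟩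
  have hW0 : 0 ≤ W := by rw [hW]; positivity
  have hY0 : (0 : ℤ) ≤ Y := Nat.cast_nonneg Y
  -- `t ≤ (W Y + |b|) l'`
  have hn0 : 0 ≤ nF Δ Q l u * i := by
    have : 0 ≤ nF Δ Q l u := (mul_nonneg (by norm_num) (sq_nonneg (l : ℤ))).trans s1.le
    positivity
  have hup : 2 * a * (t : ℤ) ≤ W * (Y * l') + |b| := by
    have h1 : sF Δ Q l u y x + nF Δ Q l u * i + k * l' ≤ W * (l : ℤ) ^ 2 := by
      have := hs3.2.2
      rw [hW]
      calc _ ≤ _ := this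
        _ = _ := by ring
    have h2 := mul_le_mul_of_nonneg_left hlY hW0
    linarith
  have hE : ∀ E : ℤ, E = W * Y + |b| + 2 * a → (t : ℤ) ≤ E * l' ∧ l' ≤ E * t ∧ 0 < E := by
    intro E hE
    refine ⟨?_, ?_, by rw [hE]; positivity⟩
    · have h1 : (t : ℤ) * 1 ≤ t * (2 * a) := mul_le_mul_of_nonneg_left (by linarith) (by linarith)
      have h2 : |b| * 1 ≤ |b| * l' := mul_le_mul_of_nonneg_left (by linarith) hb
      have h3 : 0 ≤ 2 * a * l' := by positivity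
      rw [hE]
      linarith only [h1, h2, h3, hup]
    · have h1 : l' ≤ 2 * a * t + |b| := by linarith
      have h2 : |b| * 1 ≤ |b| * t := mul_le_mul_of_nonneg_left ht1' hb
      have h3 : 0 ≤ W * Y * t := by positivity
      rw [hE]
      linarith only [h1, h2, h3]
  obtain ⟨E, hEd⟩ : ∃ E : ℤ, E = W * Y + |b| + 2 * a := ⟨_, rfl⟩
  obtain ⟨e1, e2, e3⟩ := hE E hEd
  have hKK : ((KK Δ a b Y L : ℕ) : ℤ) = E * (4 * a) := by
    have h0 : 0 ≤ E * (4 * a) := by positivity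
    unfold KK
    rw [← hW, ← hEd, Int.natCast_natAbs, abs_of_nonneg h0]
  -- the divisor
  have hlN : ((l'.toNat : ℕ) : ℤ) = l' := Int.toNat_of_nonneg hl'.le
  have haN : (((4 * a).toNat : ℕ) : ℤ) = 4 * a := Int.toNat_of_nonneg (by linarith)
  obtain ⟨lN, hlNd⟩ : ∃ lN : ℕ, lN = l'.toNat := ⟨_, rfl⟩
  obtain ⟨aN, haNd⟩ : ∃ aN : ℕ, aN = (4 * a).toNat := ⟨_, rfl⟩
  rw [← hlNd] at hlN
  rw [← haNd] at haN
  have hlNpos : 0 < lN := by
    have : (0 : ℤ) < lN := by rw [hlN]; exact hl'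
    exact_mod_cast this
  have haNpos : 0 < aN := by
    have : (0 : ℤ) < aN := by rw [haN]; linarith
    exact_mod_cast this
  obtain ⟨F, hF⟩ : ∃ F : ℕ, F = (a * (t : ℤ) ^ 2 + b * t + c).natAbs := ⟨_, rfl⟩
  have hdN : lN ∣ aN * F := by
    have h1 : (lN : ℤ) ∣ aN * (a * (t : ℤ) ^ 2 + b * t + c) := by rw [hlN, haN]; exact hd
    have h2 := Int.natAbs_dvd_natAbs.2 h1
    rw [Int.natAbs_mul, Int.natAbs_natCast, Int.natAbs_natCast, ← hF] at h2
    exact h2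
  have hG0 : 0 < Nat.gcd lN aN := Nat.gcd_pos_of_pos_left _ hlNpos
  have hdd : lN / Nat.gcd lN aN ∣ F := by
    have h1 : lN / Nat.gcd lN aN ∣ (aN / Nat.gcd lN aN) * F := by
      have h2 : Nat.gcd lN aN * (lN / Nat.gcd lN aN) ∣ Nat.gcd lN aN * (aN / Nat.gcd lN aN * F) := by
        rw [Nat.mul_div_cancel' (Nat.gcd_dvd_left _ _), ← mul_assoc,
          Nat.mul_div_cancel' (Nat.gcd_dvd_right _ _)]
        exact hdN
      exact Nat.dvd_of_mul_dvd_mul_left hG0 h2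
    exact (Nat.coprime_div_gcd_div_gcd hG0).dvd_of_dvd_mul_left h1
  have hlNeq : Nat.gcd lN aN * (lN / Nat.gcd lN aN) = lN := Nat.mul_div_cancel' (Nat.gcd_dvd_left _ _)
  have hGa : Nat.gcd lN aN ≤ aN := Nat.gcd_le_right _ haNpos
  obtain ⟨d, hdd'⟩ : ∃ d : ℕ, d = lN / Nat.gcd lN aN := ⟨_, rfl⟩
  rw [← hdd'] at hdd hlNeq
  refine ⟨d, ?_, ?_, ?_⟩
  · rw [hF] at hdd
    exact Int.natCast_dvd.2 hdd
  · have h1 : lN ≤ aN * d := by
      rw [← hlNeq]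
      exact Nat.mul_le_mul_right _ hGa
    have h2 : (lN : ℤ) ≤ aN * d := by exact_mod_cast h1
    rw [hlN, haN] at h2
    have h3 : (t : ℤ) ≤ (KK Δ a b Y L : ℕ) * d := by
      rw [hKK]
      calc (t : ℤ) ≤ E * l' := e1
        _ ≤ E * (4 * a * d) := mul_le_mul_of_nonneg_left h2 e3.le
        _ = _ := by ring
    exact_mod_cast h3
  · have h1 : d ≤ lN := by
      rw [← hlNeq]
      exact Nat.le_mul_of_pos_left _ hG0
    have h2 : (d : ℤ) ≤ l' := by rw [← hlN]; exact_mod_cast h1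
    have h3 : (d : ℤ) ≤ (KK Δ a b Y L : ℕ) * t := by
      rw [hKK]
      have h4 : E * (t : ℤ) * 1 ≤ E * t * (4 * a) :=
        mul_le_mul_of_nonneg_left (by linarith) (by positivity)
      linarith
    exact_mod_cast h3

open Classical in
/-- the good arguments with a near divisor -/
noncomputable def goodN (a b c : ℤ) (m : ℕ) (ρ : ZMod m) (t0 h C N : ℕ) : Finset ℕ :=
  (goodA a b c m ρ t0 h C N).filter (fun t => NearD a b c C t)

end Pool.Agent.Lib.MP_a17b09_nt.NA
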